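import Pool.Agent.Q117.LF.Cnt

/-!
MP_c77da8_nt (Cunningham chains of the first kind, `2^i N - 1`): among ALL the numbers `m N - 1`, `m` up to the scale of Rankin, exactly the prescribed ones, for
instance the terms `m = 1, 2, ..., 2^(k-1)` of a chain of length `k`, have no small prime factors; one is prime, another one a prime or a product of two.
-/

set_option autoImplicit false

namespace Pool.Agent.Results.MP_c77da8_nt.ExactMultiples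

/-- the scale of Rankin -/
noncomputable def R (X : ℝ) : ℝ :=
  Real.log X * Real.log (Real.log X) * Real.log (Real.log (Real.log (Real.log X))) / (Real.log (Real.log (Real.log X))) ^ 2

/-- all prime factors of `m` are `> z` (so `0` is not rough) -/
def Rough (z : ℝ) (m : ℤ) : Prop := ∀ p : ℕ, p.Prime → (p : ℤ) ∣ m → z < p

/-- at most two prime factors (with multiplicity), all `> z` -/
def AtMostTwo (z : ℝ) (m : ℤ) : Prop := m.natAbs.primeFactorsList.length ≤ 2 ∧ Rough z m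

/-- the number with multiplier `m`; `val (2^i) N` is the `i`-th term of the Cunningham sequence of the first kind that starts at `N - 1` -/
def val (m N : ℕ) : ℤ := (m : ℤ) * N - 1

theorem val_two_mul (m N : ℕ) : val (2 * m) N = 2 * val m N + 1 := by
  unfold val
  push_cast
  ring

/-- exactly the multipliers `m ∈ M`, `1 ≤ m ≤ D`, give numbers without small prime factors -/
def Exactly (t : ℕ) (X D : ℝ) (M : Finset ℕ) (N : ℕ) : Prop :=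
  (∀ m ∈ M, Rough (X ^ (1 / (t : ℝ))) (val m N)) ∧ ∀ m : ℕ, 1 ≤ m → (m : ℝ) ≤ D → m ∉ M → ¬ Rough (Real.log X) (val m N)

/-- (1) every set of at most `k` multipliers up to the scale of Rankin; (2) the chains of length `k` -/
theorem result : (∀ k K : ℕ, ∃ t : ℕ, 1 ≤ t ∧ ∃ c : ℝ, 0 < c ∧ ∃ X0 : ℝ, ∀ X : ℝ, X0 ≤ X →
    ∀ M : Finset ℕ, M.card ≤ k → 0 ∉ M → (∀ m ∈ M, (m : ℝ) ≤ c * R X) → ∀ i ∈ M, ∀ j ∈ M, i ≠ j → i ≤ K → j ≤ K →
    X ^ (99 / 100 : ℝ) ≤ ({N : ℕ | X < N ∧ (N : ℝ) ≤ 2 * X ∧ (val i N).natAbs.Prime ∧ AtMostTwo (X ^ (1 / 8 : ℝ)) (val j N) ∧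
      Exactly t X (c * R X) M N}.ncard : ℝ)) ∧
    ∀ k : ℕ, ∃ t : ℕ, 1 ≤ t ∧ ∃ c : ℝ, 0 < c ∧ ∃ X0 : ℝ, ∀ X : ℝ, X0 ≤ X → ∀ a < k, ∀ b < k, a ≠ b →
    X ^ (99 / 100 : ℝ) ≤ ({N : ℕ | X < N ∧ (N : ℝ) ≤ 2 * X ∧ (val (2 ^ a) N).natAbs.Prime ∧
      AtMostTwo (X ^ (1 / 8 : ℝ)) (val (2 ^ b) N) ∧
      Exactly t X (c * R X) ((Finset.range k).image (fun i => 2 ^ i)) N}.ncard : ℝ) := by
  have one : ∀ k K : ℕ, ∃ t : ℕ, 1 ≤ t ∧ ∃ c : ℝ, 0 < c ∧ ∃ X0 : ℝ, ∀ X : ℝ, X0 ≤ X →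
    ∀ M : Finset ℕ, M.card ≤ k → 0 ∉ M → (∀ m ∈ M, (m : ℝ) ≤ c * R X) → ∀ i ∈ M, ∀ j ∈ M, i ≠ j → i ≤ K → j ≤ K →
    X ^ (99 / 100 : ℝ) ≤ ({N : ℕ | X < N ∧ (N : ℝ) ≤ 2 * X ∧ (val i N).natAbs.Prime ∧ AtMostTwo (X ^ (1 / 8 : ℝ)) (val j N) ∧
      Exactly t X (c * R X) M N}.ncard : ℝ) := by
    have key : ∀ (m N : ℕ), (m : ℤ) * N - (1 : ℤ) = val m N := by
      intro i m
      unfold val
      ring
    intro k K
    obtain ⟨t, ht, c, hc, X0, h⟩ := Pool.Agent.Q117.LF.t7 Pool.Agent.Q117.LF.mulC (1 : ℤ) (by simp) k K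
    refine ⟨t, ht, c, hc, max X0 0, fun X hX M h1 h2 h3 i a₁ j a₂ h4 h5 h6 => ?_⟩
    have hX0 : (0 : ℝ) ≤ X := (le_max_right _ _).trans hX
    have h' := Pool.Agent.Q117.LF.cnt hX0 _ _ (h X ((le_max_left _ _).trans hX) M h1 h2 h3 i a₁ j a₂ h4 h5 h6)
    simp only [key] at h'
    exact h'
  refine ⟨one, fun k => ?_⟩
  obtain ⟨t, ht, c, hc, X0, h⟩ := one k (2 ^ k)
  obtain ⟨X1, h1⟩ := Pool.Agent.Q117.LF.Rk_large c hc (2 ^ k)
  refine ⟨t, ht, c, hc, max X0 X1, fun X hX a ha b hb hab => ?_⟩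
  have hR : (2 : ℝ) ^ k ≤ c * R X := h1 X ((le_max_right _ _).trans hX)
  have hle : ∀ i < k, 2 ^ i ≤ 2 ^ k := fun i hi => Nat.pow_le_pow_right (by norm_num) hi.le
  refine h X ((le_max_left _ _).trans hX) _ ?_ ?_ ?_ (2 ^ a) ?_ (2 ^ b) ?_ ?_ (hle a ha) (hle b hb)
  · exact Finset.card_image_le.trans (by simp)
  · simp
  · intro m hm
    obtain ⟨i, hi, rfl⟩ := Finset.mem_image.1 hm
    refine le_trans ?_ hR
    exact_mod_cast hle i (Finset.mem_range.1 hi)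
  · exact Finset.mem_image.2 ⟨a, Finset.mem_range.2 ha, rfl⟩
  · exact Finset.mem_image.2 ⟨b, Finset.mem_range.2 hb, rfl⟩
  · exact fun h => hab (Nat.pow_right_injective le_rfl h)

end Pool.Agent.Results.MP_c77da8_nt.ExactMultiples
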