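import Pool.Agent.Q84.OT3
import Pool.Agent.Q84.PP4

set_option autoImplicit false

/-!
# The orbits of `2 x + 1` and of `2 x - 1` contain primes at the same times: a positive proportion of all patterns

A finite set `H` of times which contains `0` is recurrently realised by the map `n ↦ D n + e` if for every `η > 0`
and arbitrarily large `x` there are at least `x ^ (1 - η)` primes `p ≤ x` such that, up to time `max H`, the orbit
`p, D p + e, …` of `p` is prime EXACTLY at the times in `H`. (`D = 2`, `e = 1`: chains of the first kind;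
`e = -1`: chains of the second kind.)

Let `m` and `r` be given. There is `C` depending on `m` and `r` ONLY with the following properties. Let `r` maps
`n ↦ D_j n + e_j` (`D_j ≥ 2`, `e_j ≠ 0` prime to `D_j`) and multipliers `A_j ≥ 1` be given; for instance (`r = 2 t`)
the two maps `n ↦ 2 n ± 1` with the multipliers `1, …, t`. Let `N` be any multiple of `∏ (D_j - 1)` (for `D_j = 2`:
any positive integer). Call a finite set `Y` of times good if for EVERY nonempty subset `Z` of `Y` and ALL `j` the
pattern `A_j N (Z - min Z)` is recurrently realised by the `j`-th map. Then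

* every set of `C` times contains a good set with `m + 1` elements;
* for all `X ≥ C` a proportion of at least `1 / ((m + 1) binom(C, m + 1))` of the sets of times
  `{0 < k_1 < … < k_m ≤ X}` is good.

Proof: the coloured Maynard-Tao theorem (`Pool.Agent.H732R3.BigQ.quarterB`, and `Pool.Agent.W218.OG.orbit_classesW`
for the orbits) gives exact patterns inside every large set of times, for each map separately; Ramsey's theorem
for the colouring of the finite sets `Z` by a `j` for which `Z` is not realised; double counting.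
-/

namespace Pool.Agent.Results.MP_c77da8_nt.SamePatternsOfBothKinds

open Finset Filter

/-- the `t`-th term of the orbit of `p` under `n ↦ D n + e` (`0` if it is negative) -/
def orb (D : ℕ) (e : ℤ) (p t : ℕ) : ℕ := ((fun x : ℤ => D * x + e)^[t] (p : ℤ)).toNat

/-- for arbitrarily large `x` the orbits of at least `x ^ (1 - η)` integers `p ≤ x` are prime, up to time
`max H`, exactly at the times in `H`, for every `η > 0` -/
def Realised (D : ℕ) (e : ℤ) (H : Finset ℕ) : Prop :=
  ∀ η : ℝ, 0 < η → ∃ᶠ x : ℝ in atTop,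
    x ^ (1 - η) ≤ ({p : ℕ | (p : ℝ) ≤ x ∧
      ∀ t ≤ H.sup id, ((orb D e p t).Prime ↔ t ∈ H)}.ncard : ℝ)

/-- the pattern `c (z - min Z)`, `z ∈ Z`; it contains `0` -/
noncomputable def pat (c : ℕ) (Z : Finset ℕ) : Finset ℕ :=
  Z.image fun z => c * (z - sInf (Z : Set ℕ))

/-- the patterns of all nonempty subsets of `Y`, multiplied by `A j * N`, are realised by the `j`-th
map, for all `j` -/
def Good {r : ℕ} (D : Fin r → ℕ) (e : Fin r → ℤ) (A : Fin r → ℕ) (N : ℕ) (Y : Finset ℕ) : Prop :=
  ∀ Z ⊆ Y, Z.Nonempty → ∀ j, Realised (D j) (e j) (pat (A j * N) Z)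

lemma pr_toNat (z : ℤ) : Pool.Agent.W218.OG.Pr z ↔ z.toNat.Prime := by
  constructor
  · intro h
    have h1 : ((z.toNat : ℕ) : ℤ) = z := Int.toNat_of_nonneg h.1.le
    rw [← Pool.Agent.W218.OG.pr_natO, h1]
    exact h
  · intro h
    have h0 : 0 < z := by
      by_contra hz
      rw [Int.toNat_of_nonpos (not_lt.1 hz)] at h
      exact Nat.not_prime_zero h
    have h1 : ((z.toNat : ℕ) : ℤ) = z := Int.toNat_of_nonneg h0.le
    rw [← Pool.Agent.W218.OG.pr_natO, h1] at h
    exact h

lemma real_of {D : ℕ} {e : ℤ} {H : Finset ℕ} (h : Pool.Agent.Q84.OT.RealO D e H) : Realised D e H := by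
  intro η hη
  refine (Pool.Agent.W218.OG.big_count h η hη).mono fun x hx => hx.trans (le_of_eq ?_)
  congr 2
  ext p
  simp only [Set.mem_ofPred_eq]
  refine and_congr Iff.rfl (forall_congr' fun t => imp_congr Iff.rfl (iff_congr ?_ Iff.rfl))
  exact pr_toNat _

lemma pat_translate (c t : ℕ) (Z : Finset ℕ) (hZ : Z.Nonempty) :
    pat c (Z.image fun z => z + t) = pat c Z := by
  have h0 : sInf (Z : Set ℕ) ∈ Z := mem_coe.1 (Nat.sInf_mem (coe_nonempty.2 hZ))
  have h1 : sInf ((Z.image fun z => z + t : Finset ℕ) : Set ℕ) = sInf (Z : Set ℕ) + t := by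
    apply le_antisymm
    · apply Nat.sInf_le
      rw [mem_coe, mem_image]
      exact ⟨_, h0, rfl⟩
    · have h2 : sInf ((Z.image fun z => z + t : Finset ℕ) : Set ℕ) ∈ (Z.image fun z => z + t) :=
        mem_coe.1 (Nat.sInf_mem (coe_nonempty.2 (hZ.image _)))
      rw [mem_image] at h2
      obtain ⟨z, hz, hzt⟩ := h2
      rw [← hzt]
      have := Nat.sInf_le (s := (Z : Set ℕ)) (mem_coe.2 hz)
      omega
  unfold pat
  rw [h1, image_image]
  apply image_congr
  intro z hz
  simp only [Function.comp]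
  congr 1
  omega

lemma good_translate {r : ℕ} {D : Fin r → ℕ} {e : Fin r → ℤ} {A : Fin r → ℕ} {N : ℕ}
    (Y Y' : Finset ℕ) (t : ℕ) (h : Y = Y'.image (fun y => y + t)) (hY : Good D e A N Y) :
    Good D e A N Y' := by
  intro Z hZ hne j
  have h1 := hY (Z.image fun z => z + t) (by rw [h]; exact image_subset_image hZ) (hne.image _) j
  rwa [pat_translate _ _ _ hne] at h1

open Classical in
/-- **The same patterns of primes in the orbits of several maps.** -/
theorem result (m r : ℕ) : ∃ C : ℕ, ∀ (D : Fin r → ℕ) (e : Fin r → ℤ) (A : Fin r → ℕ),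
    (∀ j, 2 ≤ D j) → (∀ j, e j ≠ 0) → (∀ j, IsCoprime (e j) (D j : ℤ)) → (∀ j, 0 < A j) →
    ∀ N : ℕ, 0 < N → (∏ j, (D j - 1)) ∣ N →
      (∀ W : Finset ℕ, C ≤ W.card → ∃ Y ⊆ W, Y.card = m + 1 ∧ Good D e A N Y) ∧
      ∀ X : ℕ, C ≤ X → X.choose m ≤ (m + 1) * C.choose (m + 1) *
        ((powersetCard (m + 1) (range (X + 1))).filter fun Y => 0 ∈ Y ∧ Good D e A N Y).card := by
  obtain ⟨C, hmC, h⟩ := Pool.Agent.Q84.OT.hereditaryO (m + 1) r
  refine ⟨C, fun D e A hD he hcop hA N hN hd => ?_⟩
  have hs0 : ∀ j, 0 < D j - 1 := fun j => by have := hD j; omega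
  have hc : ∀ j, ∃ c : ℕ, 0 < c ∧ (D j - 1) * c = A j * N := by
    intro j
    obtain ⟨s, hs⟩ : (D j - 1) ∣ N := (dvd_prod_of_mem (fun j => D j - 1) (mem_univ j)).trans hd
    have hs0 : 0 < s := Nat.pos_of_ne_zero (by
      rintro rfl
      rw [mul_zero] at hs
      omega)
    exact ⟨A j * s, Nat.mul_pos (hA j) hs0, by rw [hs]; ring⟩
  choose c hc0 hcq using hc
  have hW : ∀ W : Finset ℕ, C ≤ W.card → ∃ Y ⊆ W, Y.card = m + 1 ∧ Good D e A N Y := by
    intro W hWc
    obtain ⟨Y, hY1, hY2, hY3⟩ := h D e (fun j => D j - 1) c (fun j => ⟨hD j, he j, hcop j, hs0 j,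
      fun p _ hp => Dvd.dvd.mul_left (by exact_mod_cast hp) (e j)⟩) hc0 W hWc
    refine ⟨Y, hY1, hY2, fun Z hZ hne j => ?_⟩
    have h1 := real_of (hY3 Z hZ hne j)
    rw [hcq] at h1
    exact h1
  refine ⟨hW, fun X hX => ?_⟩
  exact Pool.Agent.Q84.PP.counting m C X hmC (by omega) _ hW good_translate

end Pool.Agent.Results.MP_c77da8_nt.SamePatternsOfBothKinds
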